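import Pool.Agent.H97.GEN.StarG2
import Pool.Agent.H97.GEN.Part2b

/-!
# Frequent points: the range `|A| ≥ 2 ^ (10 g / 11)`, from the local theorem with constant 2
-/

set_option autoImplicit false

namespace Pool.Agent.H84.GEN

open Finset Pool.Agent.H97.GEN

lemma log_of_pow2 (s t : ℕ) (Z r ρ : ℝ) (hZ : 0 < Z) (hr : 1 ≤ r) (hρ : 1 ≤ ρ)
    (h : Z ^ 22 < 2 ^ (20 * (s + t + 2)) * (r ^ 11 * ρ ^ (11 * (s + t)))) :
    Real.log Z < 10 / 11 * ((s : ℝ) + t + 2) * Real.log 2 + 1 / 2 * Real.log r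
      + ((s : ℝ) + t) / 2 * Real.log ρ := by
  have hr0 : 0 < r := by linarith
  have hρ0 : 0 < ρ := by linarith
  have h1 := Real.log_lt_log (by positivity) h
  rw [Real.log_pow, Real.log_mul (by positivity) (by positivity),
    Real.log_mul (by positivity) (by positivity), Real.log_pow, Real.log_pow, Real.log_pow] at h1
  push_cast at h1
  linarith only [h1]

theorem num2 : ∀ s : ℕ, s ≤ 2 → ∀ t : ℕ, t ≤ 2 → ∃ r ρ : ℝ, 1 ≤ r ∧ 1 ≤ ρ ∧
      Real.log (r * ((1 + ρ) ^ s * (1 + ρ) ^ t) + 2 ^ s * (1 + ρ) ^ t + (1 + ρ) ^ s * 2 ^ t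
          + 2 ^ s * 2 ^ t)
        < 10 / 11 * ((s : ℝ) + t + 2) * Real.log 2 + 1 / 2 * Real.log r
          + ((s : ℝ) + t) / 2 * Real.log ρ := by
  intro s hs t ht
  by_cases h0 : s = 0 ∧ t = 0
  · refine ⟨3, 3, by norm_num, by norm_num, log_of_pow2 s t _ _ _ (by positivity) (by norm_num)
      (by norm_num) ?_⟩
    rw [h0.1, h0.2]
    norm_num
  · by_cases h2 : s = 2 ∧ t = 2
    · refine ⟨1, 2, by norm_num, by norm_num, log_of_pow2 s t _ _ _ (by positivity) (by norm_num)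
        (by norm_num) ?_⟩
      rw [h2.1, h2.2]
      norm_num
    · refine ⟨2, 2, by norm_num, by norm_num, log_of_pow2 s t _ _ _ (by positivity) (by norm_num)
        (by norm_num) ?_⟩
      interval_cases s <;> interval_cases t <;> first | (exfalso; omega) | norm_num

variable {α : Type*} [DecidableEq α]

/-- If no point is in more than half of the unions of `J`, and there are at least `2 ^ (κ |J|)`
unions, then some member of `J` is disjoint from all others. -/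
theorem coreG2 (c : ℕ) (κ : ℝ) (hκ : 0 < κ)
    (hnum : ∀ s : ℕ, s ≤ c → ∀ t : ℕ, t ≤ c → ∃ r ρ : ℝ, 1 ≤ r ∧ 1 ≤ ρ ∧
      Real.log (r * ((1 + ρ) ^ s * (1 + ρ) ^ t) + 2 ^ s * (1 + ρ) ^ t + (1 + ρ) ^ s * 2 ^ t
          + 2 ^ s * 2 ^ t)
        < κ * ((s : ℝ) + t + 2) * Real.log 2 + 1 / 2 * Real.log r
          + ((s : ℝ) + t) / 2 * Real.log ρ)
    (hthm : ∀ V Q : Finset (Finset α), Disjoint V Q → (∀ G ∈ V ∪ Q, G.Nonempty) →
      (∀ G ∈ V ∪ Q, G ∉ unions ((V ∪ Q).erase G)) → Q.Nonempty → (∀ G ∈ Q, ∀ G' ∈ Q, G' ≠ G → Disjoint G' G) →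
      c * (V.filter fun w => ∃ q ∈ Q, ¬ Disjoint w q).card ≤ Q.card →
      (∃ G ∈ Q, ∀ G' ∈ V ∪ Q, G' ≠ G → Disjoint G' G) ∨
        (∃ x ∈ (V ∪ Q).sup id, (unions (V ∪ Q)).card < 2 * fr (unions (V ∪ Q)) x))
    (J : Finset (Finset α)) (hne : ∀ G ∈ J, G.Nonempty)
    (hirr : ∀ G ∈ J, G ∉ unions (J.erase G)) (hJ : 1 ≤ J.card)
    (hhalf : ∀ x ∈ J.sup id, 2 * fr (unions J) x ≤ (unions J).card)
    (hd : (2 : ℝ) ^ (κ * J.card) ≤ (unions J).card) :
    ∃ G ∈ J, ∀ G' ∈ J, G' ≠ G → Disjoint G' G := by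
  classical
  by_contra hcon
  push Not at hcon
  obtain ⟨P, hP1, hP2, hP3, -, hPQ⟩ := matching J
  set V : Finset (Finset α) := P.image Prod.fst ∪ P.image Prod.snd with hV
  -- the Hall condition
  have hH : ∀ M ⊆ J \ V, M.card ≤ c * (V.filter fun w => ∃ q ∈ M, ¬ Disjoint w q).card := by
    intro M hM
    by_contra hlt
    push Not at hlt
    have hMJ : M ⊆ J := hM.trans Finset.sdiff_subset
    have hJM : J \ M ∪ M = J := by
      rw [Finset.union_comm]
      exact Finset.union_sdiff_of_subset hMJ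
    have hX := hthm (J \ M) M Finset.sdiff_disjoint (by rw [hJM]; exact hne)
      (by
        rw [hJM]
        exact hirr) (Finset.card_pos.1 (by omega))
      (fun G hG G' hG' hne' => hPQ G (hM hG) G' (hM hG') hne') (by
        refine le_trans (Nat.mul_le_mul_left _ (Finset.card_le_card ?_)) hlt.le
        intro w hw
        rw [Finset.mem_filter, Finset.mem_sdiff] at hw
        obtain ⟨⟨hwJ, hwM⟩, q, hq, hnd⟩ := hw
        rw [Finset.mem_filter]
        refine ⟨?_, q, hq, hnd⟩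
        by_contra hwV
        have hne' : w ≠ q := fun h => hwM (h ▸ hq)
        exact hnd (hPQ q (hM hq) w (Finset.mem_sdiff.2 ⟨hwJ, hwV⟩) hne'))
    rw [hJM] at hX
    rcases hX with ⟨G, hG, hiso⟩ | ⟨x, hx, hlt'⟩
    · obtain ⟨G', hG', hne', hnd⟩ := hcon G (hMJ hG)
      exact hnd (hiso G' hG' hne')
    · have := hhalf x hx
      omega
  obtain ⟨φ, hφ, hφc⟩ := hallc c V (J \ V) (fun w q => ¬ Disjoint w q) hH
  -- the traces
  have hinj : Set.InjOn (K J) (unions J : Set (Finset α)) := fun A hA B hB h =>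
    K_injOn (Finset.mem_coe.1 hA) (Finset.mem_coe.1 hB) h
  have hFc : ((unions J).image (K J)).card = (unions J).card := Finset.card_image_of_injOn hinj
  have hedge : ∀ G ∈ J, ∀ G' : Finset α, ¬ Disjoint G' G → ((unions J).image (K J)).card
      ≤ 2 * (((unions J).image (K J)).filter fun S => G' ∉ S ∧ G ∉ S).card := by
    intro G hG G' hnd
    obtain ⟨x, hx1, hx2⟩ := Finset.not_disjoint_iff.1 hnd
    have hxJ : x ∈ J.sup id := mem_sup_id.2 ⟨G, hG, hx2⟩
    have h1 := hhalf x hxJ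
    have h2 := fr_add_nfr (unions J) x
    have h3 : nfr (unions J) x
        ≤ (((unions J).image (K J)).filter fun S => G' ∉ S ∧ G ∉ S).card := by
      unfold nfr
      apply Finset.card_le_card_of_injOn (K J)
      · intro A hA
        rw [Finset.mem_coe, Finset.mem_filter] at hA
        rw [Finset.mem_coe, Finset.mem_filter]
        refine ⟨Finset.mem_image_of_mem _ hA.1, ?_, ?_⟩
        · intro hc
          exact hA.2 ((mem_K.1 hc).2 hx1)
        · intro hc
          exact hA.2 ((mem_K.1 hc).2 hx2)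
      · intro A hA B hB hAB
        rw [Finset.mem_coe, Finset.mem_filter] at hA hB
        exact K_injOn hA.1 hB.1 hAB
    rw [hFc]
    omega
  have hPne : P.Nonempty := by
    rw [Finset.nonempty_iff_ne_empty]
    intro h0
    obtain ⟨G, hG⟩ := Finset.card_pos.1 hJ
    obtain ⟨G', hG', hne', hnd⟩ := hcon G hG
    have hV0 : V = ∅ := by
      rw [hV, h0]
      simp
    rw [hV0, Finset.sdiff_empty] at hPQ
    exact hnd (hPQ G hG G' hG' hne')
  have hFne : ((unions J).image (K J)).Nonempty := ⟨_, Finset.mem_image_of_mem _ (empty_mem J)⟩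
  have hb := star_bound_g c κ hκ hnum J P hP1 hP2 (J \ V) rfl φ (fun j hj => (hφ j hj).1) hφc
    ((unions J).image (K J)) hFne (by
      intro S hS
      obtain ⟨A, -, rfl⟩ := Finset.mem_image.1 hS
      exact K_subset _ _) (by
      intro p hp
      obtain ⟨x, hx1, hx2⟩ := hP3 p hp
      exact hedge p.2 (hP1 p hp).2.1 p.1 (Finset.not_disjoint_iff.2 ⟨x, hx1, hx2⟩)) (by
      intro j hj
      exact hedge j (Finset.mem_sdiff.1 hj).1 (φ j) (hφ j hj).2) hPne
  rw [hFc] at hb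
  have e1 := Real.log_le_log (by positivity) hd
  rw [Real.log_rpow (by norm_num)] at e1
  linarith only [e1, hb]

/-- The local theorem with constant 2, in the form used here. -/
def Local2 (α : Type*) [DecidableEq α] : Prop :=
  ∀ J Q : Finset (Finset α), (∀ G ∈ J, G.Nonempty) → (∀ G ∈ J, G ∉ unions (J.erase G)) →
    Q ⊆ J → Q.Nonempty → (∀ G ∈ Q, ∀ G' ∈ Q, G' ≠ G → Disjoint G' G) →
    (∀ G ∈ Q, ∃ G' ∈ J, G' ≠ G ∧ ¬ Disjoint G' G) →
    2 * ((J \ Q).filter fun w => ∃ q ∈ Q, ¬ Disjoint w q).card ≤ Q.card →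
    ∃ x ∈ Q.sup id, (unions J).card < 2 * fr (unions J) x

theorem core11 (hloc : Local2 α) (J : Finset (Finset α)) (hne : ∀ G ∈ J, G.Nonempty)
    (hirr : ∀ G ∈ J, G ∉ unions (J.erase G)) (hJ : 1 ≤ J.card)
    (hhalf : ∀ x ∈ J.sup id, 2 * fr (unions J) x ≤ (unions J).card)
    (hd : (2 : ℝ) ^ (10 / 11 * (J.card : ℝ)) ≤ (unions J).card) :
    ∃ G ∈ J, ∀ G' ∈ J, G' ≠ G → Disjoint G' G := by
  classical
  refine coreG2 2 (10 / 11) (by norm_num) num2 ?_ J hne hirr hJ hhalf hd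
  intro V Q h1 h2 h3 h3' h4 h5
  by_cases hex : ∃ G ∈ Q, ∀ G' ∈ V ∪ Q, G' ≠ G → Disjoint G' G
  · exact Or.inl hex
  push Not at hex
  right
  have hsd : (V ∪ Q) \ Q = V := by
    rw [Finset.union_sdiff_right]
    exact Finset.sdiff_eq_self_of_disjoint h1
  obtain ⟨x, hx, hlt⟩ := hloc (V ∪ Q) Q h2 h3 Finset.subset_union_right h3' h4 hex (by
    rw [hsd]
    exact h5)
  obtain ⟨G, hG, hxG⟩ := mem_sup_id.1 hx
  exact ⟨x, mem_sup_id.2 ⟨G, Finset.mem_union_right _ hG, hxG⟩, hlt⟩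

theorem part1_11 (hloc : Local2 α) {A : Finset (Finset α)} (hA : UnionClosed A)
    (hne : ∃ T ∈ A, T.Nonempty)
    (hd : (2 : ℝ) ^ (10 / 11 * ((gens A).card : ℝ)) ≤ A.card) :
    ∃ x ∈ A.sup id, A.card ≤ 2 * fr A x :=
  part1G (10 / 11) (core11 hloc) hA hne hd

theorem part2_11 (hloc : Local2 α) {A : Finset (Finset α)} (hA : UnionClosed A)
    (h : (meet A).Nonempty ∨ SepNotPower A)
    (hd : (2 : ℝ) ^ (((gens A).card : ℝ) - (meet A).card / 11) ≤ A.card) :
    ∃ x ∈ A.sup id, A.card < 2 * fr A x := by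
  have hd' : (2 : ℝ) ^ (((gens A).card : ℝ) - (1 - 10 / 11) * (meet A).card) ≤ A.card := by
    rw [show ((gens A).card : ℝ) - (1 - 10 / 11) * (meet A).card
      = (gens A).card - (meet A).card / 11 by ring]
    exact hd
  rcases h with h | h
  · exact part2G (10 / 11) (core11 hloc) hA h hd'
  · rcases meet_nonempty_or hA h with h | h
    · exact part2G (10 / 11) (core11 hloc) hA h hd'
    · exact h

end Pool.Agent.H84.GEN
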